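import Pool.Agent.Lead.Gro4

namespace Pool.Agent.Results.MP_590c78_gt.Counterexample

open Pool.Agent.Lead.Gro

theorem result : ∃ (X Y : Type) (_ : TopologicalSpace X) (_ : TopologicalSpace Y) (f : X → Y),
    T35Space X ∧ T35Space Y ∧ Continuous f ∧ IsClosedMap f ∧ Function.Surjective f ∧
    (∀ y, IsCompact (f ⁻¹' {y})) ∧ Groth Y ∧ WeaklyGroth Y ∧ ¬ Groth X ∧ ¬ WeaklyGroth X :=
  ⟨XS, YS, inferInstance, inferInstance, pr, inferInstance, inferInstance, pr_proper.continuous,
    pr_proper.isClosedMap, pr_surj, fun _ => pr_proper.isCompact_preimage isCompact_singleton,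
    groth_iff.2 groth_of_separable, wg_iff.2 (groth_of_separable _ subset_rfl),
    fun h => not_wg (groth_iff.1 h _ subset_rfl), fun h => not_wg (wg_iff.1 h)⟩

end Pool.Agent.Results.MP_590c78_gt.Counterexample
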